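import Mathlib
import Pool.Agent.H.MP_38d52f_an.C

set_option autoImplicit false

open Filter Topology Set Function

namespace Pool.Agent.H.MP_f30c32_an

open Pool.Agent.H.MP_38d52f_an

theorem S_deriv {c : ℕ → ℝ} (hc : Ent c) (t : ℝ) :
    HasDerivAt (S c) (∑' j : ℕ, -((j + 1 : ℝ) * c (j + 1)) * (-t) ^ j) t := by
  set R := |t| + 1 with hR
  have hR1 : 1 ≤ R := by linarith [abs_nonneg t]
  have hb : ∀ (n : ℕ) (y : ℝ), y ∈ Ioo (-R) R → ‖c n * (n * (-y) ^ (n - 1) * -1)‖ ≤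
      |c n| * (2 * R) ^ n := by
    intro n y hy
    rw [norm_mul, norm_mul, norm_mul, norm_pow, norm_neg, norm_neg, norm_one, mul_one,
      Real.norm_eq_abs, Real.norm_eq_abs, Real.norm_eq_abs, Nat.abs_cast, mul_pow]
    refine mul_le_mul_of_nonneg_left (mul_le_mul ?_ ?_ (by positivity) (by positivity))
      (abs_nonneg _)
    · exact_mod_cast Nat.lt_two_pow_self.le
    · exact (pow_le_pow_left₀ (abs_nonneg _) (abs_lt.2 hy).le _).trans
        (pow_le_pow_right₀ hR1 (Nat.sub_le n 1))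
  have ht : t ∈ Ioo (-R) R := abs_lt.1 (by linarith)
  have h := hasDerivAt_tsum_of_isPreconnected (hc (2 * R) (by linarith)) isOpen_Ioo
    isPreconnected_Ioo (g := fun n y => c n * (-y) ^ n)
    (g' := fun n y => c n * (n * (-y) ^ (n - 1) * -1))
    (fun n y _ => (((hasDerivAt_id' y).neg).pow n).const_mul (c n)) hb ht (hc.summable t) ht
  have hs : Summable (fun n : ℕ => c n * (n * (-t) ^ (n - 1) * -1)) :=
    Summable.of_norm_bounded (hc (2 * R) (by linarith)) (fun n => hb n t ht)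
  rw [hs.tsum_eq_zero_add] at h
  refine h.congr_deriv ?_
  simp only [Nat.cast_zero, zero_mul, mul_zero, zero_add, Nat.add_sub_cancel]
  refine tsum_congr (fun j => ?_)
  push_cast; ring

noncomputable def cg (μ : ℝ) (m : ℕ) : ℝ := 1 / ((m.factorial : ℝ) * Real.Gamma (m + μ + 1))

theorem cg_ent {μ : ℝ} (hμ : -1 < μ) : Ent (cg μ) := by
  intro r hr
  rw [← summable_nat_add_iff 1]
  have h := ((summable_nat_add_iff 1).2 (Real.summable_pow_div_factorial r)).mul_left (Real.exp 1)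
  refine Summable.of_nonneg_of_le (fun j => by positivity) (fun j => ?_) h
  have hj : (0 : ℝ) ≤ j := by positivity
  have hs : (1 : ℝ) ≤ ((j + 1 : ℕ) : ℝ) + μ + 1 := by push_cast; linarith
  have hG := Real.Gamma_pos_of_pos (lt_of_lt_of_le one_pos hs)
  have h1 := gamma_lb (R := 1) hs one_pos
  rw [Real.one_rpow, one_mul] at h1
  have h2 : 1 ≤ Real.exp 1 * Real.Gamma (((j + 1 : ℕ) : ℝ) + μ + 1) := by
    have := mul_le_mul_of_nonneg_left h1 (Real.exp_pos 1).le
    rwa [← Real.exp_add, add_neg_cancel, Real.exp_zero] at this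
  have hf : (0 : ℝ) < ((j + 1).factorial : ℝ) := by positivity
  rw [cg, abs_of_pos (by positivity), ← mul_div_assoc, one_div_mul_eq_div,
    div_le_div_iff₀ (by positivity) hf]
  nlinarith [mul_le_mul_of_nonneg_left h2 (show 0 ≤ r ^ (j + 1) * ((j + 1).factorial : ℝ) by
    positivity)]

noncomputable def g (μ : ℝ) : ℝ → ℝ := S (cg μ)

theorem g_deriv {μ : ℝ} (hμ : -1 < μ) (u : ℝ) : HasDerivAt (g μ) (-g (μ + 1) u) u := by
  refine (S_deriv (cg_ent hμ) u).congr_deriv ?_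
  rw [g, S, ← tsum_neg]
  refine tsum_congr (fun j => ?_)
  have hj : (0 : ℝ) ≤ j := by positivity
  have := (Real.Gamma_pos_of_pos (show (0 : ℝ) < j + (μ + 1) + 1 by linarith)).ne'
  have hf : ((j.factorial : ℕ) : ℝ) ≠ 0 := by positivity
  rw [cg, cg, Nat.factorial_succ]
  push_cast
  rw [show (j : ℝ) + 1 + μ + 1 = j + (μ + 1) + 1 by ring]
  field_simp

theorem g_rec {μ : ℝ} (hμ : 0 < μ) (u : ℝ) : g (μ - 1) u = μ * g μ u - u * g (μ + 1) u := by
  have s0 := (cg_ent (show -1 < μ - 1 by linarith)).summable u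
  have s1 := (cg_ent (show -1 < μ by linarith)).summable u
  have s2 := (cg_ent (show -1 < μ + 1 by linarith)).summable u
  have s1' := (summable_nat_add_iff 1).2 s1
  simp only [g, S]
  rw [s0.tsum_eq_zero_add, s1.tsum_eq_zero_add, mul_add, ← tsum_mul_left, ← tsum_mul_left,
    add_sub_assoc, ← (s1'.mul_left μ).tsum_sub (s2.mul_left u)]
  congr 1
  · have := (Real.Gamma_pos_of_pos hμ).ne'
    simp only [cg, Nat.factorial_zero, Nat.cast_one, Nat.cast_zero, zero_add, sub_add_cancel]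
    rw [Real.Gamma_add_one hμ.ne']; field_simp
  · refine tsum_congr (fun j => ?_)
    have hj : (0 : ℝ) ≤ j := by positivity
    have h1 : (0 : ℝ) < j + 1 + μ := by linarith
    have := (Real.Gamma_pos_of_pos h1).ne'
    have hf : ((j.factorial : ℕ) : ℝ) ≠ 0 := by positivity
    simp only [cg, Nat.factorial_succ]
    push_cast
    rw [show (j : ℝ) + 1 + (μ - 1) + 1 = j + 1 + μ by ring,
      show (j : ℝ) + (μ + 1) + 1 = j + 1 + μ + 1 by ring, Real.Gamma_add_one h1.ne', pow_succ]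
    field_simp
    ring

theorem g_zero (μ : ℝ) : g μ 0 = 1 / Real.Gamma (μ + 1) := by
  rw [g, S, tsum_eq_single 0 (fun j hj => by simp [hj])]; simp [cg]

variable {ν : ℝ}

noncomputable def dl (ν u : ℝ) : ℝ := g ν u ^ 2 - (ν * g ν u - u * g (ν + 1) u) * g (ν + 1) u
noncomputable def ph (ν u : ℝ) : ℝ := dl ν u / g ν u ^ 2
noncomputable def hh (ν u : ℝ) : ℝ :=
  g ν u ^ 2 - (ν + 1) * dl ν u + 2 * u * dl ν u * g (ν + 1) u / g ν u

theorem gb_deriv (hν : 0 < ν) {u : ℝ} (hu : u ≠ 0) :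
    HasDerivAt (g (ν + 1)) ((g ν u - (ν + 1) * g (ν + 1) u) / u) u := by
  refine (g_deriv (show -1 < ν + 1 by linarith) u).congr_deriv ?_
  have := g_rec (show 0 < ν + 1 by linarith) u
  rw [add_sub_cancel_right] at this
  rw [this]; field_simp; ring

theorem g_cont {μ : ℝ} (hμ : -1 < μ) : Continuous (g μ) := (cg_ent hμ).smooth.continuous

theorem dl_cont (hν : 0 < ν) : Continuous (dl ν) := by
  have := g_cont (show -1 < ν by linarith)
  have := g_cont (show -1 < ν + 1 by linarith)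
  unfold dl; fun_prop

theorem dl_deriv (hν : 0 < ν) {u : ℝ} (hu : u ≠ 0) :
    HasDerivAt (dl ν) ((g ν u ^ 2 - (ν + 1) * dl ν u) / u) u := by
  have ha := g_deriv (show -1 < ν by linarith) u
  have hb := gb_deriv hν hu
  have h := (ha.pow 2).sub (((ha.const_mul ν).sub ((hasDerivAt_id' u).mul hb)).mul hb)
  refine h.congr_deriv ?_
  simp only [dl, Pi.sub_apply, Pi.mul_apply]
  field_simp
  norm_num
  ring

theorem dl_zero (hν : 0 < ν) : dl ν 0 = g ν 0 ^ 2 / (ν + 1) := by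
  have := (Real.Gamma_pos_of_pos (show 0 < ν + 1 by linarith)).ne'
  have h1 : ν + 1 ≠ 0 := by linarith
  rw [dl, g_zero, g_zero, Real.Gamma_add_one h1]; field_simp; ring

theorem g0_pos (hν : 0 < ν) : 0 < g ν 0 := by
  rw [g_zero]; exact one_div_pos.2 (Real.Gamma_pos_of_pos (by linarith))

theorem dl_pos (hν : 0 < ν) {u : ℝ} (hu : 0 < u) : 0 < dl ν u := by
  have hd : ∀ y : ℝ, 0 < y → HasDerivAt (fun y => y ^ (ν + 1) * dl ν y) (y ^ ν * g ν y ^ 2) y := by
    intro y hy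
    refine ((Real.hasDerivAt_rpow_const (p := ν + 1) (Or.inl hy.ne')).mul
      (dl_deriv hν hy.ne')).congr_deriv ?_
    rw [add_sub_cancel_right, Real.rpow_add_one hy.ne']; field_simp; ring
  have hm : MonotoneOn (fun y => y ^ (ν + 1) * dl ν y) (Ioi 0) :=
    monotoneOn_of_deriv_nonneg (convex_Ioi 0)
      (fun y hy => (hd y hy).continuousAt.continuousWithinAt)
      (fun y hy => (hd y (interior_subset hy)).differentiableAt.differentiableWithinAt)
      (fun y hy => by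
        have hy' : 0 < y := interior_subset hy
        rw [(hd y hy').deriv]; positivity)
  have h0 : 0 < dl ν 0 := by rw [dl_zero hν]; have := g0_pos hν; positivity
  have h1 : ∀ᶠ y in 𝓝[>] (0 : ℝ), 0 < dl ν y :=
    nhdsWithin_le_nhds ((dl_cont hν).continuousAt.eventually (lt_mem_nhds h0))
  obtain ⟨y, hy1, hy2⟩ := (h1.and (Ioo_mem_nhdsGT hu)).exists
  have h2 := hm hy2.1 hu hy2.2.le
  have h3 : 0 < y ^ (ν + 1) * dl ν y := mul_pos (Real.rpow_pos_of_pos hy2.1 _) hy1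
  exact (mul_pos_iff_of_pos_left (Real.rpow_pos_of_pos hu _)).1 (h3.trans_le h2)

theorem ph_deriv (hν : 0 < ν) {u : ℝ} (hu : u ≠ 0) (ha : g ν u ≠ 0) :
    HasDerivAt (ph ν) (hh ν u / (u * g ν u ^ 2)) u := by
  refine ((dl_deriv hν hu).div ((g_deriv (show -1 < ν by linarith) u).pow 2)
    (pow_ne_zero 2 ha)).congr_deriv ?_
  simp only [hh, Pi.pow_apply]
  field_simp
  norm_num
  ring

theorem H_deriv (hν : 0 < ν) {u : ℝ} (hu : 0 < u) (ha : g ν u ≠ 0) :
    HasDerivAt (fun y => y ^ (ν + 1) * hh ν y) (2 * u ^ (ν + 1) * (dl ν u / g ν u) ^ 2) u := by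
  have h1 := g_deriv (show -1 < ν by linarith) u
  have h2 := gb_deriv hν hu.ne'
  have h3 := dl_deriv hν hu.ne'
  have h4 : HasDerivAt (hh ν) _ u := ((h1.pow 2).sub (h3.const_mul (ν + 1))).add
    ((((((hasDerivAt_id' u).const_mul 2).mul h3).mul h2).div h1 ha))
  refine ((Real.hasDerivAt_rpow_const (p := ν + 1) (Or.inl hu.ne')).mul h4).congr_deriv ?_
  rw [add_sub_cancel_right, Real.rpow_add_one hu.ne']
  simp only [hh, dl, Pi.mul_apply]
  field_simp
  norm_num
  ring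

theorem H_mono (hν : 0 < ν) {p q : ℝ} (hp : 0 ≤ p) (ha : ∀ u ∈ Ioo p q, g ν u ≠ 0) :
    StrictMonoOn (fun y => y ^ (ν + 1) * hh ν y) (Ioo p q) :=
  strictMonoOn_of_deriv_pos (convex_Ioo p q)
    (fun y hy => (H_deriv hν (hp.trans_lt hy.1) (ha y hy)).continuousAt.continuousWithinAt)
    (fun y hy => by
      have hy' := interior_subset hy
      have h0 := hp.trans_lt hy'.1
      rw [(H_deriv hν h0 (ha y hy')).deriv]
      have := div_ne_zero (dl_pos hν h0).ne' (ha y hy')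
      positivity)

theorem crit_ex (hν : 0 < ν) {p q : ℝ} (hp : 0 < p) (hpq : p < q) (h1 : g ν p = 0)
    (h2 : g ν q = 0) (ha : ∀ u ∈ Ioo p q, g ν u ≠ 0) : ∃ u ∈ Ioo p q, hh ν u = 0 := by
  obtain ⟨u, hu, h⟩ := exists_hasDerivAt_eq_zero (f := fun y => g ν y ^ 2 / dl ν y)
    (f' := fun u => -(hh ν u * g ν u ^ 2) / (u * dl ν u ^ 2)) hpq
    (((g_cont (show -1 < ν by linarith)).pow 2).continuousOn.div (dl_cont hν).continuousOn
      (fun y hy => (dl_pos hν (hp.trans_le hy.1)).ne')) (by simp [h1, h2])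
    (fun u hu => by
      have h0 := hp.trans hu.1
      have := (dl_pos hν h0).ne'
      have := ha u hu
      refine (((g_deriv (show -1 < ν by linarith) u).pow 2).div (dl_deriv hν h0.ne')
        (dl_pos hν h0).ne').congr_deriv ?_
      simp only [hh, Pi.pow_apply]
      field_simp
      norm_num
      ring)
  have h0 := hp.trans hu.1
  refine ⟨u, hu, ?_⟩
  rw [div_eq_zero_iff, neg_eq_zero, mul_eq_zero] at h
  rcases h with (h | h) | h
  · exact h
  · exact absurd h (pow_ne_zero 2 (ha u hu))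
  · exact absurd h (mul_pos h0 (pow_pos (dl_pos hν h0) 2)).ne'

theorem ph_ge {u : ℝ} (hu : 0 < u) (ha : g ν u ≠ 0) :
    ph ν u = 1 - ν ^ 2 / (4 * u) + (ν * g ν u - 2 * u * g (ν + 1) u) ^ 2 / (4 * u * g ν u ^ 2) := by
  rw [ph, dl]; field_simp; ring

theorem rolle_ex (hν : 0 < ν) {p q : ℝ} (hp : 0 ≤ p) (hpq : p < q) (h1 : p = 0 ∨ g ν p = 0)
    (h2 : g ν q = 0) : ∃ u ∈ Ioo p q, ν * g ν u - 2 * u * g (ν + 1) u = 0 := by
  obtain ⟨u, hu, h⟩ := exists_hasDerivAt_eq_zero (f := fun y => y ^ (ν / 2) * g ν y)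
    (f' := fun u => u ^ (ν / 2 - 1) / 2 * (ν * g ν u - 2 * u * g (ν + 1) u)) hpq
    ((Real.continuous_rpow_const (by linarith)).mul
      (g_cont (show -1 < ν by linarith))).continuousOn
    (by rcases h1 with h | h
        · simp [h, h2, Real.zero_rpow (show ν / 2 ≠ 0 by linarith)]
        · simp [h, h2])
    (fun u hu => by
      have h0 := hp.trans_lt hu.1
      refine ((Real.hasDerivAt_rpow_const (p := ν / 2) (Or.inl h0.ne')).mul
        (g_deriv (show -1 < ν by linarith) u)).congr_deriv ?_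
      rw [Real.rpow_sub_one h0.ne']; field_simp; ring)
  have h0 := hp.trans_lt hu.1
  exact ⟨u, hu, (mul_eq_zero.1 h).resolve_left
    (div_pos (Real.rpow_pos_of_pos h0 _) two_pos).ne'⟩

theorem ph_slope (hν : 0 < ν) {x y : ℝ} (hx : 0 ≤ x) (hxy : x < y)
    (ha : ∀ u ∈ Icc x y, g ν u ≠ 0) :
    ∃ u ∈ Ioo x y, hh ν u / (u * g ν u ^ 2) = (ph ν y - ph ν x) / (y - x) :=
  exists_hasDerivAt_eq_slope (ph ν) _ hxy
    ((dl_cont hν).continuousOn.div ((g_cont (show -1 < ν by linarith)).pow 2).continuousOn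
      (fun u hu => pow_ne_zero 2 (ha u hu)))
    (fun u hu => ph_deriv hν (hx.trans_lt hu.1).ne' (ha u (Ioo_subset_Icc_self hu)))

theorem ph_min (hν : 0 < ν) {p q α y : ℝ} (hp : 0 ≤ p) (ha : ∀ u ∈ Ioo p q, g ν u ≠ 0)
    (hα : α ∈ Ioo p q) (h0 : hh ν α = 0) (hy : y ∈ Ioo p q) : ph ν α ≤ ph ν y := by
  rcases lt_trichotomy α y with h | h | h
  · obtain ⟨u, hu, e⟩ := ph_slope hν (hp.trans hα.1.le) h
      (fun u hu => ha u ⟨hα.1.trans_le hu.1, hu.2.trans_lt hy.2⟩)
    have hu' : u ∈ Ioo p q := ⟨hα.1.trans hu.1, hu.2.trans hy.2⟩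
    have h1 := H_mono hν hp ha hα hu' hu.1
    simp only [h0, mul_zero] at h1
    have u0 := hp.trans_lt hu'.1
    have h2 : 0 < hh ν u := (mul_pos_iff_of_pos_left (Real.rpow_pos_of_pos u0 _)).1 h1
    have h3 : 0 ≤ (ph ν y - ph ν α) / (y - α) := by rw [← e]; positivity
    have := (div_nonneg_iff.1 h3).resolve_right (fun h' => by linarith [h'.2])
    linarith [this.1]
  · rw [h]
  · obtain ⟨u, hu, e⟩ := ph_slope hν (hp.trans hy.1.le) h
      (fun u hu => ha u ⟨hy.1.trans_le hu.1, hu.2.trans_lt hα.2⟩)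
    have hu' : u ∈ Ioo p q := ⟨hy.1.trans hu.1, hu.2.trans hα.2⟩
    have h1 := H_mono hν hp ha hu' hα hu.2
    simp only [h0, mul_zero] at h1
    have u0 := hp.trans_lt hu'.1
    have h2 : hh ν u ≤ 0 := by
      by_contra hc
      exact absurd h1 (not_lt.2 (mul_pos (Real.rpow_pos_of_pos u0 _) (not_le.1 hc)).le)
    have h3 : (ph ν α - ph ν y) / (α - y) ≤ 0 := by
      rw [← e]; exact div_nonpos_of_nonpos_of_nonneg h2 (by positivity)
    have := (div_nonpos_iff.1 h3).resolve_left (fun h' => by linarith [h'.2])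
    linarith [this.1]

theorem ph_first (hν : 0 < ν) {q y : ℝ} (ha : ∀ u ∈ Ioo 0 q, g ν u ≠ 0) (hy : y ∈ Ioo 0 q) :
    1 / (ν + 1) ≤ ph ν y := by
  have g0 := g0_pos hν
  have ha' : ∀ u ∈ Icc 0 y, g ν u ≠ 0 := fun u hu => by
    rcases eq_or_lt_of_le hu.1 with h | h
    · rw [← h]; exact g0.ne'
    · exact ha u ⟨h, hu.2.trans_lt hy.2⟩
  obtain ⟨u, hu, e⟩ := ph_slope hν le_rfl hy.1 ha'
  have hu' : u ∈ Ioo 0 q := ⟨hu.1, hu.2.trans hy.2⟩
  have hc : ContinuousAt (fun y => y ^ (ν + 1) * hh ν y) 0 := by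
    have c1 := g_cont (show -1 < ν by linarith)
    have c2 := g_cont (show -1 < ν + 1 by linarith)
    have c3 := dl_cont hν
    refine (Real.continuous_rpow_const (by linarith)).continuousAt.mul ?_
    unfold hh
    exact ContinuousAt.add (by fun_prop) (ContinuousAt.div (by fun_prop) (by fun_prop) g0.ne')
  have h1 : (0 : ℝ) ^ (ν + 1) * hh ν 0 ≤ u ^ (ν + 1) * hh ν u :=
    le_of_tendsto (hc.tendsto.mono_left (nhdsWithin_le_nhds (s := Ioi 0))) (by
      filter_upwards [Ioo_mem_nhdsGT hu.1] with z hz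
      exact (H_mono hν le_rfl ha ⟨hz.1, hz.2.trans hu'.2⟩ hu' hz.2).le)
  rw [Real.zero_rpow (by linarith), zero_mul] at h1
  have h2 : 0 ≤ hh ν u := (mul_nonneg_iff_of_pos_left (Real.rpow_pos_of_pos hu.1 _)).1 h1
  have h3 : 0 ≤ (ph ν y - ph ν 0) / (y - 0) := by
    rw [← e]; exact div_nonneg h2 (by have := hu.1; positivity)
  have h4 := (div_nonneg_iff.1 h3).resolve_right (fun h' => by linarith [h'.2, hy.1])
  have h5 : ph ν 0 = 1 / (ν + 1) := by rw [ph, dl_zero hν]; field_simp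
  linarith [h4.1]

end Pool.Agent.H.MP_f30c32_an
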